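import Pool.Agent.Y851.DK.E4
import Pool.Agent.Y949.DK.SV
import Pool.Agent.Y185.DK.Avg
import Pool.Agent.Y195.DK.SGA
import Pool.Agent.Y433.DK.Sol
import Pool.Agent.Y948.DK.MN
import Pool.Agent.Y363.DK.GCD

/-!
# Prime solutions of `a p - b q = c` for almost all coefficients from an arbitrary dense set

Let `θ > 0` and `λ > 0` be arbitrarily small and let `A` be an arbitrary set of positive integers `≤ X ^ θ` which contains a
positive proportion of the integers, or of the primes, up to `X ^ θ`. Then for almost all pairs `(a, b)` of elements of `A` and for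
every length `C` with `λ X ^ θ log X ≤ C ≤ X ^ (1 - ρ)` a positive proportion of the integers `c` with `|c| ≤ C` has the
property that the equation `a p - b q = c` has at least `κ X ^ (1 - θ) / (log X) ^ 2` solutions in primes `p, q ≤ X`, which is the
expected order of magnitude. (The exceptional pairs may depend on `C`.)
-/

set_option autoImplicit false

namespace Pool.Agent.Results.MP_bf63dc_nt.AlmostAllCoefficients

open Finset

/-- a set of positive integers up to `Q` which contains a positive proportion of the integers, or a set of primes up to `Q`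
which contains a positive proportion of the primes up to `Q` -/
def Dense (δ Q : ℝ) (S : Finset ℕ) : Prop :=
  (∀ n ∈ S, 1 ≤ n ∧ (n : ℝ) ≤ Q) ∧ (δ * Q ≤ S.card ∨ ((∀ n ∈ S, n.Prime) ∧ δ * (Q / Real.log Q) ≤ S.card))

/-- the number of pairs of primes `p, q ≤ X` with `a p - b q = c` -/
noncomputable def solutions (X : ℝ) (a b : ℕ) (c : ℤ) : ℕ :=
  ((Icc 1 ⌊X⌋₊ ×ˢ Icc 1 ⌊X⌋₊).filter (fun x : ℕ × ℕ => x.1.Prime ∧ x.2.Prime ∧ (a : ℤ) * (x.1 : ℤ) - (b : ℤ) * (x.2 : ℤ) = c)).card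

open Classical in
theorem result (θ lam ρ δ : ℝ) (hθ : 0 < θ) (hθ1 : θ < 1) (hlam : 0 < lam) (hρ : 0 < ρ) (hδ : 0 < δ) :
    ∃ κ X₀ : ℝ, 0 < κ ∧ ∀ X : ℝ, X₀ ≤ X → ∀ C : ℝ, lam * (X ^ θ * Real.log X) ≤ C → C ≤ X ^ (1 - ρ) →
    ∀ A : Finset ℕ, Dense δ (X ^ θ) A →
    (((A ×ˢ A).filter (fun x => ¬ (κ * C ≤ (((Icc (-(⌊C⌋₊ : ℤ)) (⌊C⌋₊ : ℤ)).filter
      (fun c => κ * (X ^ (1 - θ) / Real.log X ^ 2) ≤ (solutions X x.1 x.2 c : ℝ))).card : ℝ)))).card : ℝ) ≤ δ * (A.card : ℝ) ^ 2 := by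
  have hAVG := Pool.Agent.Y185.DK.AV.t_AVG
  obtain ⟨κ, hκ, h⟩ := Pool.Agent.Y851.DK.pairs_main (Pool.Agent.Y433.DK.t_SOL Pool.Agent.Y949.DK.t_SV) (Pool.Agent.Y948.DK.t_MN hAVG)
    Pool.Agent.Y363.DK.t_GCD Pool.Agent.Y195.DK.t_SGA θ lam ρ δ hθ hθ1 hlam hρ hδ
  obtain ⟨X₀, hX₀⟩ := Filter.eventually_atTop.1 (h.and ((Filter.eventually_gt_atTop (1 : ℝ)).and
    ((tendsto_rpow_atTop hθ).eventually_gt_atTop 1)))
  refine ⟨κ, X₀, hκ, fun X hX C hC1 hC2 A hA => ?_⟩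
  obtain ⟨h1, h2, h3⟩ := hX₀ X hX
  have hX0 : 0 < X := by linarith
  have hlog : 0 < Real.log X := Real.log_pos h2
  have hXθ : 0 < X ^ θ := by positivity
  have hC0 : 0 < C := lt_of_lt_of_le (by positivity) hC1
  have e1 : X ^ θ * (C / X ^ θ) = C := by field_simp
  have h4 : C / X ^ θ ≤ C := by
    rw [div_le_iff₀ hXθ]
    nlinarith
  have h5 : X ^ (1 - ρ) ≤ X := by
    calc X ^ (1 - ρ) ≤ X ^ (1 : ℝ) := Real.rpow_le_rpow_of_exponent_le h2.le (by linarith)
      _ = X := Real.rpow_one X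
  have hlQ : 0 < Real.log (X ^ θ) := Real.log_pos h3
  have hAd : Pool.Agent.Y851.DK.Dn δ (X ^ θ) (Real.log X) A := by
    refine ⟨hA.1, ?_⟩
    rcases hA.2 with g | ⟨g1, g2⟩
    · exact Or.inl g
    · right
      refine ⟨g1, le_trans ?_ g2⟩
      apply mul_le_mul_of_nonneg_left _ hδ.le
      apply div_le_div_of_nonneg_left hXθ.le hlQ
      rw [Real.log_rpow hX0]
      nlinarith
  have h6 := h1 (C / X ^ θ) (by rw [le_div_iff₀ hXθ]; linarith) (h4.trans hC2) (by rw [e1]; exact hC2.trans h5) A hAd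
  rw [e1] at h6
  exact h6

end Pool.Agent.Results.MP_bf63dc_nt.AlmostAllCoefficients
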