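import Pool.Agent.Y863.AR.FinR

/-!
# One of the first three iterated equations for almost all constants

Let `a, b ≥ 1` be coprime. For almost all `c` for which `(a, b, c)` satisfies the hypotheses of the
question (density one in every interval of length at least `L * max(a, b) ^ 25`), one of the equations
`a p - b q = c`, `a^2 p - b^2 q = c (a + b)`, `a^3 p - b^3 q = c (a^2 + a b + b^2)` has infinitely many
solutions in primes (with the fourth one, if `3 ∣ a - b` and `3 ∤ c`). These are the equations of the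
iterates of `q ↦ (b q + c) / a`. The same holds at every scale `X`, uniformly in `|c| ≤ X / C`.

The coloured Maynard-Tao theorem with a constant below `4` (`Pool.Agent.TH899.UG.NW.exactW`) and the
lemmas on the iterated equations (`Pool.Agent.W25.IT.Rat`) are from the starting files, the density
Hales-Jewett theorem (`Pool.Agent.H602R3.DHJ`, with `Pool.Agent.Y877.Comb`) is from the team's files.
-/

set_option autoImplicit false

namespace Pool.Agent.Results.MP_bf63dc_nt.AlmostAllConstants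

open Finset Filter

/-- the hypotheses of the question -/
def Adm (a b : ℕ) (c : ℤ) : Prop :=
  1 ≤ a ∧ 1 ≤ b ∧ c ≠ 0 ∧ IsCoprime (a : ℤ) b ∧ IsCoprime (a : ℤ) c ∧ IsCoprime (b : ℤ) c ∧
    ¬ (Odd a ∧ Odd b ∧ Odd c)

/-- the hypotheses and the conclusion of the question; moreover, for every `η > 0` and arbitrarily
large `x` there are at least `x ^ (1 - η)` primes `q ≤ x` such that `a p - b q = c` with `p` prime -/
def Good (a b : ℕ) (c : ℤ) : Prop :=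
  Adm a b c ∧ {pq : ℕ × ℕ | pq.1.Prime ∧ pq.2.Prime ∧ (a : ℤ) * pq.1 - b * pq.2 = c}.Infinite ∧
    ∀ η : ℝ, 0 < η → ∃ᶠ x : ℝ in atTop, x ^ (1 - η) ≤
      ({q : ℕ | (q.Prime ∧ ∃ p : ℕ, p.Prime ∧ (a : ℤ) * p - b * q = c) ∧ (q : ℝ) ≤ x}.ncard : ℝ)

/-- the number of the primes `q`, `y ≤ q ≤ x`, such that `a p - b q = c` with `p` prime -/
noncomputable def count (a b : ℕ) (c : ℤ) (y x : ℝ) : ℕ :=
  {q : ℕ | (q.Prime ∧ ∃ p : ℕ, p.Prime ∧ (a : ℤ) * p - b * q = c) ∧ y ≤ q ∧ (q : ℝ) ≤ x}.ncard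

/-- the right-hand side of the `j`-th iterated equation -/
def rhs (a b : ℕ) (c : ℤ) (j : ℕ) : ℤ := c * ∑ i ∈ range j, (a : ℤ) ^ i * (b : ℤ) ^ (j - 1 - i)

open Classical in
/-- `4` if `3` divides `a - b` and not `c`, otherwise `3` -/
noncomputable def R (a b : ℕ) (c : ℤ) : ℕ := if (3 : ℤ) ∣ (a : ℤ) - b ∧ ¬ (3 : ℤ) ∣ c then 4 else 3

theorem par (a b : ℕ) (c : ℤ) : (Odd a ∧ Odd b ∧ Odd c) ↔ (Odd (a : ℤ) ∧ Odd (b : ℤ) ∧ Odd c) := by
  rw [Int.odd_coe_nat, Int.odd_coe_nat]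

theorem adm_iff {a b : ℕ} (ha : 1 ≤ a) (hb : 1 ≤ b) (hab : IsCoprime (a : ℤ) b) (c : ℤ) :
    Adm a b c ↔ Pool.Agent.Y863.AR.Q0 a b c ∧ c ≠ 0 := by
  unfold Adm Pool.Agent.Y863.AR.Q0
  rw [par]
  tauto

theorem adm_iter {a b : ℕ} {c : ℤ} (h : Adm a b c) {j : ℕ} (hj : 1 ≤ j) :
    Adm (a ^ j) (b ^ j) (rhs a b c j) := by
  obtain ⟨ha, hb, hc, hab, hac, hbc, hpar⟩ := h
  have ha' : (1 : ℤ) ≤ a := by exact_mod_cast ha
  have hb' : (1 : ℤ) ≤ b := by exact_mod_cast hb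
  obtain ⟨h1, h2⟩ := Pool.Agent.W25.IT.Rat.cj_coprime hab hac hbc hj
  refine ⟨Nat.one_le_pow _ _ ha, Nat.one_le_pow _ _ hb,
    Pool.Agent.W25.IT.Rat.cj_pos a b c ha' hb' hc hj, ?_, ?_, ?_, ?_⟩
  · push_cast
    exact hab.pow
  · push_cast
    exact h1
  · push_cast
    exact h2
  · rw [par, Nat.cast_pow, Nat.cast_pow]
    rw [par] at hpar
    exact Pool.Agent.W25.IT.Rat.cj_parity hpar hj

theorem good_of {a b : ℕ} {c : ℤ} (h : Adm a b c) {j : ℕ} (hj : 1 ≤ j)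
    (hg : Pool.Agent.W25.IT.Rat.GoodEq a b c j) : Good (a ^ j) (b ^ j) (rhs a b c j) := by
  refine ⟨adm_iter h hj, ?_, ?_⟩
  · push_cast
    exact hg.1
  · push_cast
    exact hg.2

theorem count_eq (a b : ℕ) (c : ℤ) (j : ℕ) (y x : ℝ) :
    count (a ^ j) (b ^ j) (rhs a b c j) y x = Pool.Agent.Y863.AR.cntR a b c j y x := by
  unfold count Pool.Agent.Y863.AR.cntR Pool.Agent.Y863.AR.PR
  push_cast
  rfl

open Classical in
theorem result : ∀ ε : ℝ, 0 < ε → ∃ L : ℕ, ∀ a b : ℕ, 1 ≤ a → 1 ≤ b → IsCoprime (a : ℤ) b →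
    (∀ (u : ℤ) (H : ℕ), L * (max a b) ^ 25 ≤ H →
      (((Ioc u (u + H)).filter (fun c : ℤ => Adm a b c ∧
        ∀ j : ℕ, 1 ≤ j → j ≤ R a b c → ¬ Good (a ^ j) (b ^ j) (rhs a b c j))).card : ℝ) ≤
      ε * (((Ioc u (u + H)).filter (fun c : ℤ => Adm a b c)).card : ℝ)) ∧
    ∃ C : ℕ, 1 ≤ C ∧ ∀ η : ℝ, 0 < η → ∀ᶠ X : ℕ in atTop, ∀ (u : ℤ) (H : ℕ),
      L * (max a b) ^ 25 ≤ H → (C : ℤ) * (|u| + H) ≤ X →
      (((Ioc u (u + H)).filter (fun c : ℤ => Adm a b c ∧ ∀ j : ℕ, 1 ≤ j → j ≤ R a b c →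
        (count (a ^ j) (b ^ j) (rhs a b c j) (X / C) X : ℝ) < (X : ℝ) ^ (1 - η))).card : ℝ) ≤
      ε * (((Ioc u (u + H)).filter (fun c : ℤ => Adm a b c)).card : ℝ) := by
  intro ε hε
  obtain ⟨L, hL⟩ := Pool.Agent.Y863.AR.mainR ε hε
  refine ⟨L, fun a b ha hb hab => ?_⟩
  obtain ⟨⟨C, hC, h1⟩, h2⟩ := hL a b ha hb hab
  have hR : ∀ c : ℤ, R a b c = Pool.Agent.Y863.AR.RR a b c := fun c => rfl
  have hden : ∀ (u : ℤ) (H : ℕ), (((Ioc u (u + H)).filter (fun c : ℤ =>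
      Pool.Agent.Y863.AR.Q0 a b c ∧ c ≠ 0)).card : ℝ) ≤
      (((Ioc u (u + H)).filter (fun c : ℤ => Adm a b c)).card : ℝ) := by
    intro u H
    rw [Nat.cast_le]
    apply card_le_card
    intro c hc
    obtain ⟨h3, h4⟩ := mem_filter.1 hc
    exact mem_filter.2 ⟨h3, (adm_iff ha hb hab c).2 h4⟩
  refine ⟨fun u H hH => ?_, C, hC, fun η hη => ?_⟩
  · refine le_trans ?_ ((h2 u H hH).trans (mul_le_mul_of_nonneg_left (hden u H) hε.le))
    rw [Nat.cast_le]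
    apply card_le_card
    intro c hc
    obtain ⟨h3, h4, h5⟩ := mem_filter.1 hc
    obtain ⟨h6, h7⟩ := (adm_iff ha hb hab c).1 h4
    exact mem_filter.2 ⟨h3, h6, h7, fun j hj1 hj2 hg => h5 j hj1 hj2 (good_of h4 hj1 hg)⟩
  · filter_upwards [h1 (min η 1) (by positivity) (min_le_right _ _), eventually_ge_atTop 1]
      with X hX hX1 u H hH hCX
    refine le_trans ?_ ((hX u H hH hCX).trans (mul_le_mul_of_nonneg_left (hden u H) hε.le))
    rw [Nat.cast_le]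
    apply card_le_card
    intro c hc
    obtain ⟨h3, h4, h5⟩ := mem_filter.1 hc
    obtain ⟨h6, h7⟩ := (adm_iff ha hb hab c).1 h4
    refine mem_filter.2 ⟨h3, h6, h7, fun j hj1 hj2 => ?_⟩
    have h8 := h5 j hj1 hj2
    rw [count_eq] at h8
    refine h8.trans_le (Real.rpow_le_rpow_of_exponent_le (by exact_mod_cast hX1) ?_)
    have := min_le_left η 1
    linarith

end Pool.Agent.Results.MP_bf63dc_nt.AlmostAllConstants
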