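import Pool.Agent.Y820.LF.Fin

/-!
# The equation `a p - b q = c` after adding a bounded number of multiples of powers to `c`

For all pairwise relatively prime `a, b, c`, not all odd, with `1 ≤ a, b ≤ Q` and `0 ≤ c ≤ B X` there are a sum
`P₁` and a sum `P₂` of at most `K` powers of `l` each, such that the equation `a p - b q = c + a P₁ - b P₂` has the
number of prime solutions predicted by Hardy and Littlewood, up to a relative error of `ε`, for all lengths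
between `X / m` and `X`; `K` depends on `l, Q, B, m, ε` alone. The sums can be the same for all the equations of an
arbitrary family, up to a proportion `ρ` of its members.

Method: the average over random sets of exponents in windows of the digits of a correlation sum of two linear
forms, a second moment for each factor of the product by the inequality of Cauchy and Schwarz for Gram
matrices, Vaughan's identity and the sieve. Libraries: W93, TH892, TH894, H373R2, H560R3 (starting files),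
Y820 (helper820; tasks by helper692, helper71, helper514, helper515, helper484).
-/

set_option autoImplicit false

namespace Pool.Agent.Results.MP_bf63dc_nt.BoundedlyManyPowers

open Finset Filter

/-- `a, b, c` are pairwise relatively prime and not all odd, `a, b ≥ 1`. -/
def Ok (a b : ℕ) (c : ℤ) : Prop :=
  1 ≤ a ∧ 1 ≤ b ∧ Nat.Coprime a b ∧ IsCoprime (a : ℤ) c ∧ IsCoprime (b : ℤ) c ∧ (2 : ℤ) ∣ a * b * c

/-- The number of the prime solutions `(p, q)` of `a p - b q = c` with `y < q ≤ y + a N`. -/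
noncomputable def sol (a b : ℕ) (c : ℤ) (y N : ℕ) : ℕ :=
  Set.ncard {x : ℕ × ℕ | x.1.Prime ∧ x.2.Prime ∧ (a : ℤ) * x.1 - b * x.2 = c ∧ y < x.2 ∧ x.2 ≤ y + a * N}

open Classical in
/-- The partial products of the singular series: the factor of a prime `p ≤ z` is `(1 - 1 / p) / (1 - 1 / p) ^ 2` if `p`
divides `a b c`, and `(1 - 2 / p) / (1 - 1 / p) ^ 2` otherwise. -/
noncomputable def sing (a b : ℕ) (c : ℤ) (z : ℕ) : ℝ :=
  ∏ p ∈ (Icc 1 z).filter Nat.Prime, (1 - (if (p : ℤ) ∣ a * b * c then 1 else 2) / (p : ℝ)) / (1 - 1 / (p : ℝ)) ^ 2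

/-- The equation `a p - b q = c` has the predicted number of prime solutions with `y < q ≤ y + a N`, with a relative
error of at most `ε`, for all `N` between `X / m` and `X`: the partial products of the singular series converge
to some `G > 0`, and `sol a b c y N` is `G N / log ^ 2 N` up to the factor `1 ± ε`. -/
def Formula (ε : ℝ) (m X : ℕ) (a b : ℕ) (c : ℤ) (y : ℕ) : Prop :=
  ∃ G : ℝ, 0 < G ∧ Tendsto (sing a b c) atTop (nhds G) ∧ ∀ N : ℕ, N ≤ X → X ≤ m * N →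
    |(sol a b c y N : ℝ) - G * (N / Real.log N ^ 2)| ≤ ε * (G * (N / Real.log N ^ 2))

/-- the two forms -/
def Cf (a b : ℕ) : Fin 2 → ℤ := Fin.cons (b : ℤ) (fun _ => (a : ℤ))

/-- the two constants -/
def Hf (u v : ℕ) : Fin 2 → ℤ := Fin.cons (u : ℤ) (fun _ => (v : ℤ))

lemma nu_eq (a b : ℕ) (c : ℤ) (h : Ok a b c) (u v : ℕ) (hc : (a : ℤ) * u - b * v = c) (p : ℕ) (hp : p.Prime) :
    Pool.Agent.Y820.LF.nuF (Cf a b) (Hf u v) p = if (p : ℤ) ∣ a * b * c then 1 else 2 := by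
  classical
  obtain ⟨_, _, hab, hac, hbc, _⟩ := h
  have hpz := Nat.prime_iff_prime_int.1 hp
  have hset : Pool.Agent.Y820.LF.nuF (Cf a b) (Hf u v) p =
      ((range p).filter (fun r : ℕ => (p : ℤ) ∣ (b : ℤ) * r + u ∨ (p : ℤ) ∣ (a : ℤ) * r + v)).card := by
    unfold Pool.Agent.Y820.LF.nuF
    congr 1
    apply filter_congr
    intro r _
    rw [Fin.exists_fin_two]
    rfl
  rw [hset]
  have hcop : ∀ w : ℤ, IsCoprime w c → (p : ℤ) ∣ w → ¬ (p : ℤ) ∣ c := by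
    intro w hw h1 h2
    exact hpz.not_isUnit (hw.isUnit_of_dvd' h1 h2)
  by_cases ha : (p : ℤ) ∣ (a : ℤ)
  · -- the second form has no zero
    have hc' := hcop _ hac ha
    have hb : ¬ (p : ℤ) ∣ (b : ℤ) := by
      intro hb
      have h1 : p ∣ a := Int.natCast_dvd_natCast.1 ha
      have h2 : p ∣ b := Int.natCast_dvd_natCast.1 hb
      have h3 := Nat.dvd_gcd h1 h2
      rw [Nat.Coprime.gcd_eq_one hab] at h3
      exact hp.one_lt.ne' (Nat.dvd_one.1 h3)
    have hv : ∀ r : ℕ, ¬ (p : ℤ) ∣ (a : ℤ) * r + v := by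
      intro r hd
      have h1 : (p : ℤ) ∣ v := (dvd_add_right (Dvd.dvd.mul_right ha _)).1 hd
      apply hc'
      rw [← hc]
      exact dvd_sub (Dvd.dvd.mul_right ha _) (Dvd.dvd.mul_left h1 _)
    obtain ⟨r1, hr1, hr1'⟩ := Pool.Agent.Y820.LF.SBF.ex_rep (b : ℤ) u p hp hb
    have heq : (range p).filter (fun r : ℕ => (p : ℤ) ∣ (b : ℤ) * r + u ∨ (p : ℤ) ∣ (a : ℤ) * r + v) = {r1} := by
      ext r
      rw [mem_filter, mem_range, mem_singleton]
      constructor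
      · rintro ⟨h1, h2 | h2⟩
        · exact Pool.Agent.Y820.LF.SBF.uniq_rep (b : ℤ) u p hp hb _ _ h1 hr1 h2 hr1'
        · exact absurd h2 (hv r)
      · rintro rfl
        exact ⟨hr1, Or.inl hr1'⟩
    rw [heq, card_singleton, if_pos (Dvd.dvd.mul_right (Dvd.dvd.mul_right ha _) _)]
  · by_cases hb : (p : ℤ) ∣ (b : ℤ)
    · have hc' := hcop _ hbc hb
      have hu : ∀ r : ℕ, ¬ (p : ℤ) ∣ (b : ℤ) * r + u := by
        intro r hd
        have h1 : (p : ℤ) ∣ u := (dvd_add_right (Dvd.dvd.mul_right hb _)).1 hd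
        apply hc'
        rw [← hc]
        exact dvd_sub (Dvd.dvd.mul_left h1 _) (Dvd.dvd.mul_right hb _)
      obtain ⟨r1, hr1, hr1'⟩ := Pool.Agent.Y820.LF.SBF.ex_rep (a : ℤ) v p hp ha
      have heq : (range p).filter (fun r : ℕ => (p : ℤ) ∣ (b : ℤ) * r + u ∨ (p : ℤ) ∣ (a : ℤ) * r + v) = {r1} := by
        ext r
        rw [mem_filter, mem_range, mem_singleton]
        constructor
        · rintro ⟨h1, h2 | h2⟩
          · exact absurd h2 (hu r)
          · exact Pool.Agent.Y820.LF.SBF.uniq_rep (a : ℤ) v p hp ha _ _ h1 hr1 h2 hr1'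
        · rintro rfl
          exact ⟨hr1, Or.inr hr1'⟩
      rw [heq, card_singleton, if_pos (Dvd.dvd.mul_right (Dvd.dvd.mul_left hb _) _)]
    · obtain ⟨r1, hr1, hr1'⟩ := Pool.Agent.Y820.LF.SBF.ex_rep (b : ℤ) u p hp hb
      obtain ⟨r2, hr2, hr2'⟩ := Pool.Agent.Y820.LF.SBF.ex_rep (a : ℤ) v p hp ha
      have heq : (range p).filter (fun r : ℕ => (p : ℤ) ∣ (b : ℤ) * r + u ∨ (p : ℤ) ∣ (a : ℤ) * r + v) = {r1, r2} := by
        ext r
        rw [mem_filter, mem_range, mem_insert, mem_singleton]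
        constructor
        · rintro ⟨h1, h2 | h2⟩
          · exact Or.inl (Pool.Agent.Y820.LF.SBF.uniq_rep (b : ℤ) u p hp hb _ _ h1 hr1 h2 hr1')
          · exact Or.inr (Pool.Agent.Y820.LF.SBF.uniq_rep (a : ℤ) v p hp ha _ _ h1 hr2 h2 hr2')
        · rintro (rfl | rfl)
          · exact ⟨hr1, Or.inl hr1'⟩
          · exact ⟨hr2, Or.inr hr2'⟩
      rw [heq]
      have hrr : r1 = r2 ↔ (p : ℤ) ∣ c := by
        constructor
        · rintro rfl
          have h1 := dvd_sub (Dvd.dvd.mul_left hr1' (a : ℤ)) (Dvd.dvd.mul_left hr2' (b : ℤ))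
          have e : (a : ℤ) * (b * r1 + u) - b * (a * r1 + v) = c := by rw [← hc]; ring
          rwa [e] at h1
        · intro hpc
          have h1 : (p : ℤ) ∣ b * (a * r1 + v) := by
            have e : (b : ℤ) * (a * r1 + v) = a * (b * r1 + u) - c := by rw [← hc]; ring
            rw [e]
            exact dvd_sub (Dvd.dvd.mul_left hr1' _) hpc
          have h2 := (hpz.dvd_or_dvd h1).resolve_left hb
          exact Pool.Agent.Y820.LF.SBF.uniq_rep (a : ℤ) v p hp ha _ _ hr1 hr2 h2 hr2'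
      by_cases hpc : (p : ℤ) ∣ c
      · rw [if_pos (Dvd.dvd.mul_left hpc _), hrr.2 hpc]
        simp
      · rw [if_neg, card_pair (fun h => hpc (hrr.1 h))]
        intro hd
        rcases hpz.dvd_or_dvd hd with h1 | h1
        · rcases hpz.dvd_or_dvd h1 with h2 | h2
          · exact ha h2
          · exact hb h2
        · exact hpc h1

lemma adm (a b : ℕ) (c : ℤ) (h : Ok a b c) (u v : ℕ) (hc : (a : ℤ) * u - b * v = c) :
    Pool.Agent.Y820.LF.AdmF (Cf a b) (Hf u v) := by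
  intro p hp
  rw [nu_eq a b c h u v hc p hp]
  have h2 := hp.two_le
  by_cases hd : (p : ℤ) ∣ a * b * c
  · rw [if_pos hd]
    omega
  · rw [if_neg hd]
    rcases Nat.lt_or_ge 2 p with h3 | h3
    · exact h3
    · exfalso
      have : p = 2 := by omega
      subst this
      exact hd (by exact_mod_cast h.2.2.2.2.2)

lemma sing_eq (a b : ℕ) (c : ℤ) (h : Ok a b c) (u v : ℕ) (hc : (a : ℤ) * u - b * v = c) :
    Pool.Agent.Y820.LF.singF (Cf a b) (Hf u v) = sing a b c := by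
  funext z
  unfold Pool.Agent.Y820.LF.singF sing
  apply prod_congr rfl
  intro p hp
  rw [nu_eq a b c h u v hc p (mem_filter.1 hp).2]
  congr 3
  split_ifs <;> norm_num

lemma sol_eq (a b : ℕ) (c : ℤ) (h : Ok a b c) (u v : ℕ) (hc : (a : ℤ) * u - b * v = c) (N : ℕ) :
    sol a b c v N = Pool.Agent.Y820.LF.cntF (Cf a b) (Hf u v) N := by
  classical
  obtain ⟨ha1, hb1, hab, _, _, _⟩ := h
  unfold sol Pool.Agent.Y820.LF.cntF
  have himg : {x : ℕ × ℕ | x.1.Prime ∧ x.2.Prime ∧ (a : ℤ) * x.1 - b * x.2 = c ∧ v < x.2 ∧ x.2 ≤ v + a * N} =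
      (((Icc 1 N).filter (fun n : ℕ => ∀ i, (Cf a b i * (n : ℤ) + Hf u v i).toNat.Prime)).image
        (fun n => (b * n + u, a * n + v)) : Finset (ℕ × ℕ)) := by
    ext x
    rw [Set.mem_ofPred_eq, mem_coe, mem_image]
    constructor
    · rintro ⟨h1, h2, h3, h4, h5⟩
      -- a (x.1 - u) = b (x.2 - v)
      obtain ⟨d, hd⟩ : ∃ d : ℕ, x.2 = v + d := ⟨x.2 - v, by omega⟩
      have h6 : (a : ℤ) * ((x.1 : ℤ) - u) = b * d := by
        have : (x.2 : ℤ) = v + d := by exact_mod_cast hd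
        rw [this] at h3
        linarith
      have h7 : (a : ℤ) ∣ (d : ℤ) := by
        have h8 : IsCoprime (a : ℤ) (b : ℤ) := Nat.isCoprime_iff_coprime.2 hab
        exact h8.dvd_of_dvd_mul_left ⟨_, h6.symm⟩
      obtain ⟨n, hn⟩ := Int.natCast_dvd_natCast.1 h7
      subst hn
      have h8 : (x.1 : ℤ) = b * n + u := by
        have ha0 : (a : ℤ) ≠ 0 := by exact_mod_cast (by omega : a ≠ 0)
        apply mul_left_cancel₀ ha0
        push_cast at h6
        linarith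
      have h9 : x.1 = b * n + u := by exact_mod_cast h8
      have hn1 : 1 ≤ n := by
        by_contra hcon
        have : n = 0 := by omega
        rw [this, mul_zero] at hd
        omega
      have hn2 : n ≤ N := by
        have : a * n ≤ a * N := by omega
        exact Nat.le_of_mul_le_mul_left this ha1
      refine ⟨n, mem_filter.2 ⟨mem_Icc.2 ⟨hn1, hn2⟩, ?_⟩, ?_⟩
      · rw [Fin.forall_fin_two]
        constructor
        · have e : Cf a b 0 * (n : ℤ) + Hf u v 0 = ((b * n + u : ℕ) : ℤ) := by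
            unfold Cf Hf
            rw [Fin.cons_zero, Fin.cons_zero]
            push_cast
            ring
          rw [e, Int.toNat_natCast, ← h9]
          exact h1
        · have e : Cf a b 1 * (n : ℤ) + Hf u v 1 = ((a * n + v : ℕ) : ℤ) := by
            have e1 : Cf a b 1 = a := rfl
            have e2 : Hf u v 1 = v := rfl
            rw [e1, e2]
            push_cast
            ring
          rw [e, Int.toNat_natCast]
          rw [hd, add_comm] at h2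
          exact h2
      · ext
        · exact h9.symm
        · simp only
          omega
    · rintro ⟨n, hn, rfl⟩
      rw [mem_filter, mem_Icc, Fin.forall_fin_two] at hn
      obtain ⟨⟨hn1, hn2⟩, h1, h2⟩ := hn
      have e : Cf a b 0 * (n : ℤ) + Hf u v 0 = ((b * n + u : ℕ) : ℤ) := by
        unfold Cf Hf
        rw [Fin.cons_zero, Fin.cons_zero]
        push_cast
        ring
      have e' : Cf a b 1 * (n : ℤ) + Hf u v 1 = ((a * n + v : ℕ) : ℤ) := by
        have e1 : Cf a b 1 = a := rfl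
        have e2 : Hf u v 1 = v := rfl
        rw [e1, e2]
        push_cast
        ring
      rw [e, Int.toNat_natCast] at h1
      rw [e', Int.toNat_natCast] at h2
      have h3 : a * n ≤ a * N := Nat.mul_le_mul_left _ hn2
      have h4 : 1 ≤ a * n := Nat.mul_pos ha1 hn1
      refine ⟨h1, h2, ?_, ?_, ?_⟩
      · rw [← hc]
        push_cast
        ring
      · simp only
        omega
      · simp only
        omega
  rw [himg, Set.ncard_coe_finset, card_image_of_injective]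
  intro n n' hnn
  simp only [Prod.mk.injEq] at hnn
  have h1 : a * n = a * n' := by omega
  exact Nat.eq_of_mul_eq_mul_left ha1 h1

/-- For all `l ≥ 2`, `Q`, `B`, `m ≥ 1` and `ε, ρ, θ > 0` there are `K` and `X₀` with the following property. Let `X ≥ X₀`
and let `T` be an ARBITRARY finite set of triples `(a, b, c)` of pairwise relatively prime numbers, not all odd,
with `1 ≤ a, b ≤ Q` and `0 ≤ c ≤ B X`. There are sets `S₁` and `S₂` of at most `K` exponents each, with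
`∑_{ν ∈ Sᵢ} l ^ ν ≤ θ X`, such that for all but at most `ρ |T|` of the triples in `T` (in particular for all of them if
`ρ |T| < 1`) the number `c' = c + a ∑_{ν ∈ S₁} l ^ ν - b ∑_{ν ∈ S₂} l ^ ν` has the following properties: `a, b, c'` are
pairwise relatively prime and not all odd, and there is a `y ≤ θ X` such that for all `N` between `X / m` and `X`
the number of the prime solutions of `a p - b q = c'` with `y < q ≤ y + a N` satisfies the formula of Hardy and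
Littlewood with a relative error of at most `ε`. -/
theorem result (l Q B m : ℕ) (hl : 2 ≤ l) (hm : 1 ≤ m) (ε ρ θ : ℝ) (hε : 0 < ε) (hρ : 0 < ρ) (hθ : 0 < θ) :
    ∃ K X₀ : ℕ, ∀ X : ℕ, X₀ ≤ X → ∀ T : Finset (ℕ × ℕ × ℕ),
      (∀ g ∈ T, Ok g.1 g.2.1 g.2.2 ∧ g.1 ≤ Q ∧ g.2.1 ≤ Q ∧ g.2.2 ≤ B * X) →
      ∃ S₁ S₂ : Finset ℕ, (S₁.card ≤ K ∧ ∑ ν ∈ S₁, (l : ℝ) ^ ν ≤ θ * X) ∧ (S₂.card ≤ K ∧ ∑ ν ∈ S₂, (l : ℝ) ^ ν ≤ θ * X) ∧
        ∃ E ⊆ T, (E.card : ℝ) ≤ ρ * T.card ∧ ∀ g ∈ T, g ∉ E → ∀ c' : ℤ,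
          c' = g.2.2 + g.1 * ∑ ν ∈ S₁, (l : ℤ) ^ ν - g.2.1 * ∑ ν ∈ S₂, (l : ℤ) ^ ν →
            Ok g.1 g.2.1 c' ∧ ∃ y : ℕ, (y : ℝ) ≤ θ * X ∧ Formula ε m X g.1 g.2.1 c' y := by
  classical
  obtain ⟨θ', hθ'⟩ : ∃ θ' : ℝ, θ' = min (θ / 2) 1 := ⟨_, rfl⟩
  have hθ'0 : 0 < θ' := by rw [hθ']; exact lt_min (by positivity) one_pos
  have hθ'1 : θ' ≤ 1 := by rw [hθ']; exact min_le_right _ _
  have hθ'2 : θ' ≤ θ / 2 := by rw [hθ']; exact min_le_left _ _
  obtain ⟨D, X₀, hgen⟩ := Pool.Agent.Y820.LF.gen0 Pool.Agent.Y820.LF.t_lim Pool.Agent.Y820.LF.t_main0 Pool.Agent.Y820.LF.t_tr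
    Pool.Agent.Y820.LF.t_SBF Pool.Agent.Y820.LT.t_R Pool.Agent.Y820.LT.t_P l hl 2 (by norm_num) (Q + 1) (B + 1) (Pool.Agent.Y820.LF.QQ l 2 (Q + 1)) m
    (by omega) (Pool.Agent.Y820.LF.QQ_pos _ _ _) hm ε ρ θ' hε hρ hθ'0 hθ'1
  obtain ⟨x1, hx1⟩ := exists_nat_ge (2 * (Q : ℝ) / θ)
  refine ⟨D, X₀ + Q ^ 2 + Q + x1 + 1, fun X hX T hT => ?_⟩
  -- the first solutions
  have hex : ∀ g : ℕ × ℕ × ℕ, ∃ w : ℕ × ℕ, g ∈ T → ((g.1 : ℤ) * w.1 - g.2.1 * w.2 = g.2.2 ∧ w.2 < g.1) := by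
    intro g
    by_cases hg : g ∈ T
    swap
    · exact ⟨(0, 0), fun h => absurd h hg⟩
    obtain ⟨⟨ha1, hb1, hab, _, _, _⟩, _, _, _⟩ := hT g hg
    have ha0 : (0 : ℤ) < (g.1 : ℤ) := by exact_mod_cast ha1
    obtain ⟨s, t, hst⟩ : IsCoprime (g.2.1 : ℤ) (g.1 : ℤ) := Nat.isCoprime_iff_coprime.2 hab.symm
    obtain ⟨v, hv⟩ : ∃ v : ℕ, (v : ℤ) = (-(g.2.2 : ℤ) * s) % (g.1 : ℤ) := ⟨_, Int.toNat_of_nonneg (Int.emod_nonneg _ ha0.ne')⟩
    have hv2 : (v : ℤ) < g.1 := by rw [hv]; exact Int.emod_lt_of_pos _ ha0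
    have h3 := Int.emod_add_mul_ediv (-(g.2.2 : ℤ) * s) (g.1 : ℤ)
    rw [← hv] at h3
    have hd : (g.1 : ℤ) ∣ ((g.2.2 + g.2.1 * v : ℕ) : ℤ) := by
      refine ⟨g.2.2 * t - g.2.1 * (-(g.2.2 : ℤ) * s / (g.1 : ℤ)), ?_⟩
      have h5 : (v : ℤ) = -(g.2.2 : ℤ) * s - (g.1 : ℤ) * (-(g.2.2 : ℤ) * s / (g.1 : ℤ)) := by linarith
      push_cast
      rw [h5]
      linear_combination (g.2.2 : ℤ) * (-1) * hst
    obtain ⟨u, hu⟩ := Int.natCast_dvd_natCast.1 hd
    refine ⟨(u, v), fun _ => ⟨?_, by exact_mod_cast hv2⟩⟩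
    have h6 : ((g.2.2 : ℤ) + g.2.1 * v) = g.1 * u := by exact_mod_cast hu
    simp only
    linarith
  choose w hw using hex
  obtain ⟨S, hS1, hS2, hS3, E, hET, hEc, hE⟩ := hgen X (by omega) (ℕ × ℕ × ℕ) T (fun g => Cf g.1 g.2.1) (fun g => Hf (w g).1 (w g).2) (fun _ _ _ => 1)
    (fun g hg i => by
      obtain ⟨⟨ha1, hb1, _⟩, haQ, hbQ, _⟩ := hT g hg
      revert i
      rw [Fin.forall_fin_two]
      constructor
      · show (g.2.1 : ℤ) ≠ 0 ∧ |(g.2.1 : ℤ)| ≤ _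
        rw [abs_of_nonneg (by positivity)]
        exact ⟨by exact_mod_cast (by omega : g.2.1 ≠ 0), by exact_mod_cast (by omega : g.2.1 ≤ Q + 1)⟩
      · show (g.1 : ℤ) ≠ 0 ∧ |(g.1 : ℤ)| ≤ _
        rw [abs_of_nonneg (by positivity)]
        exact ⟨by exact_mod_cast (by omega : g.1 ≠ 0), by exact_mod_cast (by omega : g.1 ≤ Q + 1)⟩)
    (fun _ _ _ _ => Or.inl rfl)
    (fun g hg i => by
      obtain ⟨⟨ha1, hb1, _⟩, haQ, hbQ, hcB⟩ := hT g hg
      obtain ⟨hw1, hw2⟩ := hw g hg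
      have hw3 : (w g).1 ≤ (B + 1) * X := by
        have h1 : g.1 * (w g).1 = g.2.1 * (w g).2 + g.2.2 := by
          have : (g.1 : ℤ) * (w g).1 = g.2.1 * (w g).2 + g.2.2 := by linarith
          exact_mod_cast this
        have h2 : g.2.1 * (w g).2 ≤ Q * Q := Nat.mul_le_mul hbQ (by omega)
        have h3 : (w g).1 ≤ g.1 * (w g).1 := Nat.le_mul_of_pos_left _ ha1
        have h4 : Q * Q = Q ^ 2 := (sq Q).symm
        have h5 : (B + 1) * X = B * X + X := by ring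
        omega
      revert i
      rw [Fin.forall_fin_two]
      constructor
      · show |((w g).1 : ℤ)| ≤ _
        rw [abs_of_nonneg (by positivity)]
        exact_mod_cast hw3
      · show |((w g).2 : ℤ)| ≤ _
        rw [abs_of_nonneg (by positivity)]
        have : (w g).2 ≤ (B + 1) * X := by
          have h5 : (B + 1) * X = B * X + X := by ring
          omega
        exact_mod_cast this)
  obtain ⟨U, hU1, hU2, hU3⟩ := Pool.Agent.Y820.LF.choose_U l 2 (Q + 1) (fun _ _ => 1) (fun _ _ => Or.inl rfl) S hS1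
  have hsub : ∀ i, U i ∪ S i ⊆ Pool.Agent.Y820.LF.Rsv (Pool.Agent.Y820.LF.QQ l 2 (Q + 1)) ∪ S i := fun i => union_subset_union_left (hU1 i)
  have hsz : ∀ i, ∑ ν ∈ U i ∪ S i, (l : ℝ) ^ ν ≤ θ / 2 * X := by
    intro i
    have h1 : ∑ ν ∈ U i ∪ S i, (l : ℝ) ^ ν ≤ ∑ ν ∈ Pool.Agent.Y820.LF.Rsv (Pool.Agent.Y820.LF.QQ l 2 (Q + 1)) ∪ S i, (l : ℝ) ^ ν :=
      sum_le_sum_of_subset_of_nonneg (hsub i) (fun ν _ _ => by positivity)
    have h2 := hS2 i
    have h3 : (0 : ℝ) ≤ ∑ ν ∈ Pool.Agent.Y820.LF.Rsv (Pool.Agent.Y820.LF.QQ l 2 (Q + 1)) ∪ S i, (l : ℝ) ^ ν := sum_nonneg (fun ν _ => by positivity)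
    have h4 : (1 : ℝ) ≤ l := by exact_mod_cast (by omega : 1 ≤ l)
    have h5 := mul_le_mul_of_nonneg_right h4 h3
    have h6 : θ' * X ≤ θ / 2 * X := mul_le_mul_of_nonneg_right hθ'2 (Nat.cast_nonneg _)
    linarith
  have hX0 : (0 : ℝ) ≤ X := Nat.cast_nonneg _
  have hle : θ / 2 * (X : ℝ) ≤ θ * X := by nlinarith
  refine ⟨U 0 ∪ S 0, U 1 ∪ S 1, ⟨(card_le_card (hsub 0)).trans (hS3 0), (hsz 0).trans hle⟩, ⟨(card_le_card (hsub 1)).trans (hS3 1), (hsz 1).trans hle⟩,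
    E, hET, hEc, fun g hg hgE c' hc' => ?_⟩
  obtain ⟨hOk, haQ, hbQ, hcB⟩ := hT g hg
  obtain ⟨hw1, hw2⟩ := hw g hg
  obtain ⟨P1, hP1⟩ : ∃ P1 : ℕ, P1 = ∑ ν ∈ U 0 ∪ S 0, l ^ ν := ⟨_, rfl⟩
  obtain ⟨P2, hP2⟩ : ∃ P2 : ℕ, P2 = ∑ ν ∈ U 1 ∪ S 1, l ^ ν := ⟨_, rfl⟩
  have hP1z : (P1 : ℤ) = ∑ ν ∈ U 0 ∪ S 0, (1 : ℤ) * (l : ℤ) ^ ν := by
    rw [hP1]
    push_cast
    exact sum_congr rfl (fun ν _ => (one_mul _).symm)
  have hP2z : (P2 : ℤ) = ∑ ν ∈ U 1 ∪ S 1, (1 : ℤ) * (l : ℤ) ^ ν := by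
    rw [hP2]
    push_cast
    exact sum_congr rfl (fun ν _ => (one_mul _).symm)
  have hc2 : c' = (g.2.2 : ℤ) + g.1 * P1 - g.2.1 * P2 := by
    rw [hc', hP1, hP2]
    push_cast
    rfl
  have heq : (g.1 : ℤ) * (((w g).1 + P1 : ℕ) : ℤ) - g.2.1 * (((w g).2 + P2 : ℕ) : ℤ) = c' := by
    rw [hc2]
    push_cast
    linarith
  -- the small primes divide P1 and P2
  have hsm : ∀ p : ℕ, p.Prime → p ≤ Q + 4 → (p : ℤ) ∣ (P1 : ℤ) ∧ (p : ℤ) ∣ (P2 : ℤ) := by
    intro p hp hpQ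
    have h1 := hU2 0
    have h2 := hU3 0
    have h3 := hU2 1
    have h4 := hU3 1
    rw [← hP1z] at h1 h2
    rw [← hP2z] at h3 h4
    exact ⟨Pool.Agent.Y820.LT.small_dvd l (2 + (Q + 1)) _ h1 h2 p hp (by omega), Pool.Agent.Y820.LT.small_dvd l (2 + (Q + 1)) _ h3 h4 p hp (by omega)⟩
  have hOk' : Ok g.1 g.2.1 c' := by
    obtain ⟨ha1, hb1, hab, hac, hbc, h2⟩ := hOk
    have hcc : ∀ p : ℕ, p.Prime → p ≤ Q + 4 → ((p : ℤ) ∣ c' ↔ (p : ℤ) ∣ (g.2.2 : ℤ)) := by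
      intro p hp hpQ
      obtain ⟨h3, h4⟩ := hsm p hp hpQ
      have e : c' = (g.2.2 : ℤ) + ((g.1 : ℤ) * P1 - g.2.1 * P2) := by rw [hc2]; ring
      rw [e]
      exact dvd_add_left (dvd_sub (Dvd.dvd.mul_left h3 _) (Dvd.dvd.mul_left h4 _))
    have hcopr : ∀ d : ℕ, 1 ≤ d → d ≤ Q → IsCoprime (d : ℤ) (g.2.2 : ℤ) → IsCoprime (d : ℤ) c' := by
      intro d hd1 hdQ hd
      rw [Int.isCoprime_iff_gcd_eq_one]
      by_contra hne
      obtain ⟨p, hp, hpd⟩ := Nat.exists_prime_and_dvd hne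
      have h5 : (p : ℤ) ∣ (d : ℤ) := (Int.natCast_dvd_natCast.2 hpd).trans (Int.gcd_dvd_left _ _)
      have h6 : (p : ℤ) ∣ c' := (Int.natCast_dvd_natCast.2 hpd).trans (Int.gcd_dvd_right _ _)
      have h7 : p ∣ d := Int.natCast_dvd_natCast.1 h5
      have h8 : p ≤ Q + 4 := by
        have := Nat.le_of_dvd hd1 h7
        omega
      have h9 := (hcc p hp h8).1 h6
      exact (Nat.prime_iff_prime_int.1 hp).not_isUnit (hd.isUnit_of_dvd' h5 h9)
    refine ⟨ha1, hb1, hab, hcopr _ ha1 haQ hac, hcopr _ hb1 hbQ hbc, ?_⟩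
    rcases (Int.prime_two.dvd_or_dvd h2) with h3 | h3
    · exact Dvd.dvd.mul_right h3 _
    · exact Dvd.dvd.mul_left (by exact_mod_cast (hcc 2 Nat.prime_two (by omega)).2 (by exact_mod_cast h3)) _
  refine ⟨hOk', (w g).2 + P2, ?_, ?_⟩
  · have h1 : (P2 : ℝ) ≤ θ / 2 * X := by
      rw [hP2]
      push_cast
      exact hsz 1
    have h2 : ((w g).2 : ℝ) ≤ θ / 2 * X := by
      have h3 : ((w g).2 : ℝ) ≤ Q := by exact_mod_cast (by omega : (w g).2 ≤ Q)
      have h4 : (x1 : ℝ) ≤ X := by exact_mod_cast (by omega : x1 ≤ X)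
      have h5 := hx1.trans h4
      rw [div_le_iff₀ hθ] at h5
      linarith
    push_cast
    linarith
  · obtain ⟨G, hG0, hG1, hG2⟩ := hE g hg hgE U hU1 (Hf ((w g).1 + P1) ((w g).2 + P2)) (by
      rw [Fin.forall_fin_two]
      constructor
      · show (((w g).1 + P1 : ℕ) : ℤ) = ((w g).1 : ℤ) + _
        rw [← hP1z]
        push_cast
        ring
      · show (((w g).2 + P2 : ℕ) : ℤ) = ((w g).2 : ℤ) + _
        rw [← hP2z]
        push_cast
        ring) (adm g.1 g.2.1 c' hOk' _ _ heq)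
    refine ⟨G, hG0, ?_, fun N hN1 hN2 => ?_⟩
    · rw [← sing_eq g.1 g.2.1 c' hOk' _ _ heq]
      exact hG1
    · rw [sol_eq g.1 g.2.1 c' hOk' _ _ heq]
      apply hG2 N hN1 hN2
      have hN0 : 1 ≤ N := by
        by_contra hcon
        have : N = 0 := by omega
        rw [this, mul_zero] at hN2
        omega
      obtain ⟨ha1, hb1, _⟩ := hOk
      intro i
      revert i
      rw [Fin.forall_fin_two]
      constructor
      · show 1 ≤ (g.2.1 : ℤ) + (((w g).1 + P1 : ℕ) : ℤ) ∧ 1 ≤ (g.2.1 : ℤ) * N + (((w g).1 + P1 : ℕ) : ℤ)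
        have : 1 ≤ g.2.1 * N := Nat.mul_pos hb1 hN0
        exact ⟨by exact_mod_cast (by omega : 1 ≤ g.2.1 + ((w g).1 + P1)), by exact_mod_cast (by omega : 1 ≤ g.2.1 * N + ((w g).1 + P1))⟩
      · show 1 ≤ (g.1 : ℤ) + (((w g).2 + P2 : ℕ) : ℤ) ∧ 1 ≤ (g.1 : ℤ) * N + (((w g).2 + P2 : ℕ) : ℤ)
        have : 1 ≤ g.1 * N := Nat.mul_pos ha1 hN0
        exact ⟨by exact_mod_cast (by omega : 1 ≤ g.1 + ((w g).2 + P2)), by exact_mod_cast (by omega : 1 ≤ g.1 * N + ((w g).2 + P2))⟩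

end Pool.Agent.Results.MP_bf63dc_nt.BoundedlyManyPowers
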