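import Mathlib
import Pool.Agent.Y887.UT.FinB

/-!
# `a m - b n = c` with exactly prescribed numbers of prime factors, uniformly in `c`

There is an absolute constant `r₀` such that for all coprime `a, b ≥ 1` and all `r, s ≥ r₀`, for all large `X` and
for EVERY `c` with `0 < |c| ≤ X`, prime to `a b` and such that `a`, `b`, `c` are not all odd, the equation
`a m - b n = c` has at least `X / (log X) ^ K` solutions in which `m` has exactly `r` and `n` has exactly `s` distinct
prime factors (the question: `r = s = 1`, one `c`), with `min (a m, b n)` in any prescribed interval `[λ X, μ X]`;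
the same with exactly `d₀ * i` and `d₀ * j` divisors. These are the cases `F = ω`, `F = τ` of a theorem on all
multiplicative functions whose values at the prime powers `p ^ e` depend only on `e`, for which the parity
obstruction of the sieve is absent: some relation `∏ f (u_i) = ∏ f (v_j)` has `∑ u_i = ∑ v_j + 1`.

Proof: for a bipartite family of differences `h = s - s'` of two short lists of numbers, prime to `c` and of size
`(log X) ^ O(1)`, the numbers `(y + c s) / h` and `(y + c s') / h` have the difference `c`. They are composed from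
the entries of two short lists of linear forms in `y`, to which the sieve applies uniformly in `c`; exponents of
private primes realise the relation and remove the dependence of the values on the numbers of prime factors left
undecided by the sieve.
-/

set_option autoImplicit false

namespace Pool.Agent.Results.MP_bf63dc_nt.ExactUniform

open Filter

/-- The value at `n` of the multiplicative function whose value at every prime power `p ^ e`, `e ≥ 1`, is
`f e`, with values in a commutative group. -/
def F {Γ : Type} [CommGroup Γ] (f : ℕ → Γ) (n : ℕ) : Γ :=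
  ∏ p ∈ n.primeFactors, f (n.factorization p)

/-- `m = k s`, where `k ≤ (log X) ^ K` and `s` is squarefree with all prime factors larger than `X ^ (1 / K)`;
the prime factors of `m` are `> M` and do not divide `c`. -/
def Shape (K M X : ℕ) (c : ℤ) (m : ℕ) : Prop :=
  ∃ k s : ℕ, m = k * s ∧ (k : ℝ) ≤ Real.log X ^ K ∧ Squarefree s ∧
    (∀ p : ℕ, p.Prime → p ∣ s → X < p ^ K) ∧
    ∀ p : ℕ, p.Prime → p ∣ m → M < p ∧ ¬ (p : ℤ) ∣ c

/-- **The equation `a m - b n = c` with exact values of multiplicative functions, uniformly in `c`.**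

(a)  Let `F` be the multiplicative function with the values `f e` at all prime powers `p ^ e`, with values in a
commutative group, such that for some finite multisets `u`, `v` of positive integers, with `∑ u = ∑ v + 1`, the
products of the `f j`, `j ∈ u`, and of the `f j`, `j ∈ v`, are equal.  There is an element `Φ` of the group,
depending only on `f`, such that for all coprime `a, b ≥ 1`, all elements `γ`, `δ` of the monoid generated by the
`f j`, `j ≥ 1`, all `M` and all real `0 ≤ λ < μ` there is `K` such that for all large `X` and ALL integers `c` with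
`0 < |c| ≤ X` such that `a`, `b`, `c` are pairwise coprime and not all odd, there are at least `X / (log X) ^ K`
pairs `(m, n)` with `a m - b n = c`, `λ X ≤ min (a m, b n) ≤ μ X`, `F m = Φ * γ`, `F n = Φ * δ`, in which `m` and
`n` are prime to `c`, have no prime factors `≤ M`, and are of the form `k s` with `k ≤ (log X) ^ K` and `s`
squarefree with all prime factors larger than `X ^ (1 / K)`.

(b)  There are absolute constants `r₀`, `d₀ ≥ 1` such that for all coprime `a, b ≥ 1`, all `r, s ≥ r₀`, all
`i, j ≥ 1` and all real `0 ≤ λ < μ` there is `K` such that for all large `X` and ALL `c` as in (a) at least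
`X / (log X) ^ K` pairs `(m, n)` with `a m - b n = c`, `λ X ≤ min (a m, b n) ≤ μ X`, are such that `m` has exactly
`r` and `n` exactly `s` distinct prime factors, and as many are such that `m` has exactly `d₀ * i` and `n` exactly
`d₀ * j` divisors. -/
theorem result :
    (∀ (Γ : Type) [CommGroup Γ] (f : ℕ → Γ) (u v : Multiset ℕ),
      (∀ j ∈ u, 1 ≤ j) → (∀ j ∈ v, 1 ≤ j) → u.sum = v.sum + 1 →
      (u.map f).prod = (v.map f).prod →
      ∃ Φ : Γ, ∀ a b : ℕ, 0 < a → 0 < b → a.Coprime b →
        ∀ γ ∈ Submonoid.closure (f '' {j | 1 ≤ j}), ∀ δ ∈ Submonoid.closure (f '' {j | 1 ≤ j}),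
        ∀ (M : ℕ) (lam mu : ℝ), 0 ≤ lam → lam < mu → ∃ K : ℕ, ∀ᶠ X : ℕ in atTop,
        ∀ c : ℤ, c ≠ 0 → |c| ≤ X → IsCoprime c (a * b) → 2 ∣ a * b * c →
          (X : ℝ) / Real.log X ^ K ≤ ({x : ℕ × ℕ | (a : ℤ) * x.1 - b * x.2 = c ∧
            (lam * X ≤ min (a * x.1 : ℝ) (b * x.2) ∧ min (a * x.1 : ℝ) (b * x.2) ≤ mu * X) ∧
            F f x.1 = Φ * γ ∧ F f x.2 = Φ * δ ∧
            Shape K M X c x.1 ∧ Shape K M X c x.2}.ncard : ℝ)) ∧
    ∃ r₀ d₀ : ℕ, 0 < d₀ ∧ ∀ a b : ℕ, 0 < a → 0 < b → a.Coprime b →
      ∀ r s i j : ℕ, r₀ ≤ r → r₀ ≤ s → 1 ≤ i → 1 ≤ j →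
      ∀ lam mu : ℝ, 0 ≤ lam → lam < mu → ∃ K : ℕ, ∀ᶠ X : ℕ in atTop,
      ∀ c : ℤ, c ≠ 0 → |c| ≤ X → IsCoprime c (a * b) → 2 ∣ a * b * c →
        (X : ℝ) / Real.log X ^ K ≤ ({x : ℕ × ℕ | (a : ℤ) * x.1 - b * x.2 = c ∧
          (lam * X ≤ min (a * x.1 : ℝ) (b * x.2) ∧ min (a * x.1 : ℝ) (b * x.2) ≤ mu * X) ∧
          x.1.primeFactors.card = r ∧ x.2.primeFactors.card = s}.ncard : ℝ) ∧
        (X : ℝ) / Real.log X ^ K ≤ ({x : ℕ × ℕ | (a : ℤ) * x.1 - b * x.2 = c ∧
          (lam * X ≤ min (a * x.1 : ℝ) (b * x.2) ∧ min (a * x.1 : ℝ) (b * x.2) ≤ mu * X) ∧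
          x.1.divisors.card = d₀ * i ∧ x.2.divisors.card = d₀ * j}.ncard : ℝ) :=
  ⟨fun _ _ f u v hu hv hsum huv => Pool.Agent.Y887.UT.diffs f u v hu hv hsum huv,
    Pool.Agent.Y887.UT.diffs_ot⟩

end Pool.Agent.Results.MP_bf63dc_nt.ExactUniform
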